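import Pool.Agent.Results.MP_743d1e_nt.RealRooted
set_option autoImplicit false

/-!
# The double cover `(x, z) ↦ (x², z²)` and the symbols
-/

namespace Pool.Agent.V5helper77.BB

open Polynomial

open Pool.Agent.TH826.MK (KQ symb Torus symb_update_mul)

open Pool.Agent.TH826.HD

section hom

variable {K S : Type*} [Field K] [CommRing S] {P : K[X]} {n : ℕ} {A : Fin n → K}

/-- The homomorphism on the coordinate ring of the curve defined by a solution `(x, z)`. -/
noncomputable def evR (k : K →+* S) (x z : S) (h : z ^ 2 - P.eval₂ k x * z + 1 = 0) :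
    PRing P →+* S :=
  AdjoinRoot.lift (Polynomial.eval₂RingHom k x) z (by
    unfold peqn
    simp only [Polynomial.eval₂_add, Polynomial.eval₂_sub, Polynomial.eval₂_mul,
      Polynomial.eval₂_X, Polynomial.eval₂_C, Polynomial.eval₂_one, Polynomial.eval₂_X_pow]
    exact h)

theorem evR_ppol (k : K →+* S) (x z : S) (h : z ^ 2 - P.eval₂ k x * z + 1 = 0) (p : K[X]) :
    evR k x z h (ppol P p) = p.eval₂ k x :=
  AdjoinRoot.lift_of _

theorem evR_pz (k : K →+* S) (x z : S) (h : z ^ 2 - P.eval₂ k x * z + 1 = 0) :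
    evR k x z h (pz P) = z :=
  AdjoinRoot.lift_root _

/-- The extension of a homomorphism to the ring of the open part. -/
noncomputable def liftR (g : PRing P →+* S) (t : S) (ht : g (pDel P A) * t = 1) :
    POpen P A →+* S :=
  AdjoinRoot.lift g t (by
    unfold peqnO
    simp only [Polynomial.eval₂_sub, Polynomial.eval₂_mul, Polynomial.eval₂_X,
      Polynomial.eval₂_C, Polynomial.eval₂_one]
    rw [ht, sub_self])

theorem liftR_toP (g : PRing P →+* S) (t : S) (ht : g (pDel P A) * t = 1) (r : PRing P) :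
    liftR g t ht (toP P A r) = g r :=
  AdjoinRoot.lift_of _

end hom

section torus

variable {R R' : Type*} [CommRing R] [CommRing R'] {d : ℕ}

/-- the image of a torus under the map of complex points given by a homomorphism -/
noncomputable def pull (φ : R →+* R') (Γ : Torus R' d) : Torus R d where
  e θ := (Γ.e θ).comp φ
  smooth h := Γ.smooth (φ h)
  periodic θ i := by rw [Γ.periodic]

theorem pull_symb (φ : R →+* R') (Γ : Torus R' d) (a : Fin (d + 1) → Rˣ) :
    (pull φ Γ).reg (symb a) = Γ.reg (symb fun i => Units.map (φ : R →* R') (a i)) := by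
  rw [Torus.reg_symb, Torus.reg_symb]
  rfl

end torus

section symbols

variable {R : Type*} [CommRing R]

theorem symb_sq (z p q : Rˣ) : symb ![z * z, p * q] =
    (symb ![z, p] + symb ![z, q]) + (symb ![z, p] + symb ![z, q]) := by
  have h1 : ∀ x y x' : Rˣ, Function.update ![x, y] 0 x' = ![x', y] := fun x y x' => by
    funext i
    fin_cases i <;> rfl
  have h2 : ∀ x y y' : Rˣ, Function.update ![x, y] 1 y' = ![x, y'] := fun x y y' => by
    funext i
    fin_cases i <;> rfl
  have e1 := symb_update_mul ![z, p * q] 0 z z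
  rw [h1, h1] at e1
  have e2 := symb_update_mul ![z, p] 1 p q
  rw [h2, h2, h2] at e2
  rw [e1, e2]

end symbols

section cover

variable {K L : Type*} [Field K] [Field L] (s : K →+* L) {P : K[X]} {F : L[X]} {h : ℕ}
  {A : Fin (h + 1) → K} {B : Fin (h + h + 1) → L}

/-- the index of the root `β_i` -/
def ip (i : Fin h) : Fin (h + h + 1) := (Fin.castAdd h i).succ

/-- the index of the root `-β_i` -/
def im (i : Fin h) : Fin (h + h + 1) := (Fin.natAdd h i).succ

/-- the data of the double cover -/
structure Cov (s : K →+* L) (P : K[X]) (F : L[X]) (A : Fin (h + 1) → K)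
    (B : Fin (h + h + 1) → L) : Prop where
  eq : (P.map s).comp (X ^ 2) = F ^ 2 - 2
  a0 : A 0 = 0
  b0 : B 0 = 0
  bp : ∀ i, B (ip i) ^ 2 = s (A i.succ)
  bm : ∀ i, B (im i) = -B (ip i)

variable {s}

theorem eval_sq (q : K[X]) : q.eval₂ ((pcst F B).comp s) (toP F B (ppol F X) ^ 2) =
    toP F B (ppol F ((q.map s).comp (X ^ 2))) := by
  have h1 : ((toP F B).comp (ppol F)) ((q.map s).comp (X ^ 2)) =
      (q.map s).eval₂ (((toP F B).comp (ppol F)).comp C) (((toP F B).comp (ppol F)) (X ^ 2)) := by
    rw [Polynomial.comp, Polynomial.hom_eval₂]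
  have h2 : toP F B (ppol F ((q.map s).comp (X ^ 2))) =
      ((toP F B).comp (ppol F)) ((q.map s).comp (X ^ 2)) := rfl
  rw [h2, h1, Polynomial.eval₂_map, map_pow]
  rfl

variable (H : Cov s P F A B)

include H

theorem eqn : (toP F B (pz F) ^ 2) ^ 2 - P.eval₂ ((pcst F B).comp s) (toP F B (ppol F X) ^ 2) *
    toP F B (pz F) ^ 2 + 1 = 0 := by
  rw [eval_sq, H.eq]
  have h1 := congrArg (toP F B) (pz_eq F)
  simp only [map_add, map_sub, map_mul, map_pow, map_one, map_zero] at h1
  have h2 : toP F B (ppol F (F ^ 2 - 2)) = toP F B (ppol F F) ^ 2 - 2 := by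
    rw [map_sub, map_pow, map_sub, map_pow, map_ofNat, map_ofNat]
  rw [h2]
  linear_combination (toP F B (pz F) ^ 2 + toP F B (ppol F F) * toP F B (pz F) + 1) * h1

/-- the homomorphism of the coordinate rings -/
noncomputable def phi0 : PRing P →+* POpen F B :=
  evR ((pcst F B).comp s) (toP F B (ppol F X) ^ 2) (toP F B (pz F) ^ 2) (eqn H)

theorem phi0_x (i : Fin h) : phi0 H (ppol P (X - C (A i.succ))) =
    (ux F B (ip i) : POpen F B) * (ux F B (im i) : POpen F B) := by
  unfold phi0
  rw [evR_ppol, eval_sq, coe_ux, coe_ux, ← map_mul, ← map_mul]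
  congr 2
  rw [Polynomial.map_sub, Polynomial.map_X, Polynomial.map_C, sub_comp, X_comp, C_comp, H.bm,
    map_neg, ← H.bp, map_pow]
  ring

theorem phi0_x0 : phi0 H (ppol P (X - C (A 0))) = (ux F B 0 : POpen F B) * (ux F B 0 : POpen F B) := by
  unfold phi0
  rw [evR_ppol, eval_sq, coe_ux, ← map_mul, ← map_mul]
  congr 2
  rw [Polynomial.map_sub, Polynomial.map_X, Polynomial.map_C, sub_comp, X_comp, C_comp, H.b0,
    H.a0, map_zero, map_zero]
  ring

theorem isUnit_del : IsUnit (phi0 H (pDel P A)) := by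
  unfold pDel
  rw [map_prod, map_prod, Fin.prod_univ_succ, phi0_x0]
  refine IsUnit.mul ((ux F B 0).isUnit.mul (ux F B 0).isUnit) ?_
  rw [IsUnit.prod_univ_iff]
  intro i
  rw [phi0_x]
  exact (ux F B (ip i)).isUnit.mul (ux F B (im i)).isUnit

/-- the homomorphism of the coordinate rings of the open parts -/
noncomputable def phi : POpen P A →+* POpen F B :=
  liftR (phi0 H) ((isUnit_del H).unit⁻¹ : (POpen F B)ˣ) (isUnit_del H).mul_val_inv

theorem phi_z : Units.map (phi H : POpen P A →* POpen F B) (uz P A) = uz F B * uz F B := by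
  ext
  show phi H (toP P A (pz P)) = toP F B (pz F) * toP F B (pz F)
  unfold phi phi0
  rw [liftR_toP, evR_pz]
  ring

theorem phi_x (i : Fin h) : Units.map (phi H : POpen P A →* POpen F B) (ux P A i.succ) =
    ux F B (ip i) * ux F B (im i) := by
  ext
  show phi H (toP P A (ppol P (X - C (A i.succ)))) = _
  unfold phi
  rw [liftR_toP, phi0_x]
  rfl

theorem phi_x0 : Units.map (phi H : POpen P A →* POpen F B) (ux P A 0) =
    ux F B 0 * ux F B 0 := by
  ext
  show phi H (toP P A (ppol P (X - C (A 0)))) = _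
  unfold phi
  rw [liftR_toP, phi0_x0]
  rfl

theorem phi_c (y : K) : phi H (pcst P A y) = pcst F B (s y) := by
  show phi H (toP P A (ppol P (C y))) = _
  unfold phi phi0
  rw [liftR_toP, evR_ppol, eval₂_C]
  rfl

theorem phi_symb (i : Fin h) :
    (symb fun j => Units.map (phi H : POpen P A →* POpen F B) (pent P A i.succ 0 j)) =
    (symb (pent F B (ip i) 0) + symb (pent F B (im i) 0)) +
      (symb (pent F B (ip i) 0) + symb (pent F B (im i) 0)) := by
  have e : (fun j => Units.map (phi H : POpen P A →* POpen F B) (pent P A i.succ 0 j)) =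
      ![uz F B * uz F B, (ux F B (ip i) / ux F B 0) * (ux F B (im i) / ux F B 0)] := by
    funext j
    fin_cases j
    · show Units.map (phi H : POpen P A →* POpen F B) (uz P A) = uz F B * uz F B
      exact phi_z H
    · show Units.map (phi H : POpen P A →* POpen F B) (ux P A i.succ / ux P A 0) =
        (ux F B (ip i) / ux F B 0) * (ux F B (im i) / ux F B 0)
      rw [_root_.map_div, phi_x, phi_x0]
      exact mul_div_mul_comm _ _ _ _
  rw [e, symb_sq]
  rfl

end cover

/-- **Independence descends along the double cover.** -/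
theorem descend {K : Type*} [Field K] {s : K →+* ℂ} {P : K[X]} {F : ℂ[X]} {h : ℕ}
    {A : Fin (h + 1) → K} {B : Fin (h + h + 1) → ℂ} (H : Cov s P F A B)
    (hI : Pool.Agent.Results.MP_743d1e_nt.RealRooted.IndependentRegulators (RingHom.id ℂ) F B) :
    Pool.Agent.Results.MP_743d1e_nt.RealRooted.IndependentRegulators s P A := by
  obtain ⟨Γ, h1, h2⟩ := hI
  set M : Matrix (Fin (h + h)) (Fin (h + h)) ℝ :=
    Matrix.of fun l k => (Γ l).reg (symb (pent F B k.succ 0)) with hM
  have hreg : ∀ l i, (pull (phi H) (Γ l)).reg (symb (pent P A (Fin.succ i) 0)) =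
      2 * (M l (Fin.castAdd h i) + M l (Fin.natAdd h i)) := by
    intro l i
    rw [pull_symb, phi_symb, map_add, map_add]
    show _ = 2 * ((Γ l).reg (symb (pent F B (ip i) 0)) + (Γ l).reg (symb (pent F B (im i) 0)))
    ring
  obtain ⟨β, hβ⟩ := Pool.Agent.N686.PF.exists_det
    (fun (l : Fin (h + h)) (i : Fin h) => M l (Fin.castAdd h i) + M l (Fin.natAdd h i)) (fun y hy => by
      set c : Fin (h + h) → ℝ := Fin.append y y with hc
      have hz : M.mulVec c = 0 := by
        funext l
        have h3 := hy l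
        rw [Matrix.mulVec, dotProduct, Fin.sum_univ_add, Pi.zero_apply]
        simp only [hc, Fin.append_left, Fin.append_right]
        rw [← Finset.sum_add_distrib]
        rw [← h3]
        exact Finset.sum_congr rfl fun i _ => by ring
      have hc0 : c = 0 := Matrix.eq_zero_of_mulVec_eq_zero h2 hz
      funext i
      have h4 := congrFun hc0 (Fin.castAdd h i)
      rwa [hc, Fin.append_left] at h4)
  refine ⟨fun l => pull (phi H) (Γ (β l)), fun l θ y => ?_, ?_⟩
  · show (Γ (β l)).e θ (phi H (pcst P A y)) = s y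
    rw [phi_c, h1]
    rfl
  · have e : (Matrix.of fun l k : Fin h =>
        (pull (phi H) (Γ (β l))).reg (symb (pent P A k.succ 0))) =
        (2 : ℝ) • (Matrix.of fun l k : Fin h =>
          M (β k) (Fin.castAdd h l) + M (β k) (Fin.natAdd h l)).transpose := by
      ext l k
      rw [Matrix.of_apply, hreg, Matrix.smul_apply, Matrix.transpose_apply, Matrix.of_apply,
        smul_eq_mul]
    rw [e, Matrix.det_smul, Matrix.det_transpose]
    exact mul_ne_zero (pow_ne_zero _ two_ne_zero) hβ

end Pool.Agent.V5helper77.BB
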