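import Pool.Agent.V5helper77.BB.Alg
set_option autoImplicit false

/-!
# The cover `z + 1/z = √n x ∏ (x² - α_i)`
-/

namespace Pool.Agent.V5helper77.BB

open Polynomial

open Pool.Agent.Results.MP_743d1e_nt.RealRooted

open Pool.Agent.Y775.CC (SmoothPts)

open Pool.Agent.N686.DI (sum_inv_eq_zero le_crit_value)

open Pool.Agent.N686.RR (crit_real)

section roots

variable {h : ℕ} (α : Fin h → ℝ)

/-- the roots `0`, `√α_i`, `-√α_i` -/
noncomputable def rt : Fin (h + h + 1) → ℝ :=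
  Fin.cons 0 (Fin.append (fun i => √(α i)) (fun i => -√(α i)))

theorem rt_zero : rt α 0 = 0 := rfl

theorem rt_ip (i : Fin h) : rt α (ip i) = √(α i) := by
  unfold rt ip
  rw [Fin.cons_succ, Fin.append_left]

theorem rt_im (i : Fin h) : rt α (im i) = -√(α i) := by
  unfold rt im
  rw [Fin.cons_succ, Fin.append_right]

theorem prod_rt {M : Type*} [CommMonoid M] (f : ℝ → M) :
    ∏ j, f (rt α j) = f 0 * ∏ i, (f (√(α i)) * f (-√(α i))) := by
  rw [Fin.prod_univ_succ, Fin.prod_univ_add, Finset.prod_mul_distrib, rt_zero]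
  congr 2
  · exact Finset.prod_congr rfl fun i _ => congrArg f (rt_ip α i)
  · exact Finset.prod_congr rfl fun i _ => congrArg f (rt_im α i)

theorem sum_rt {M : Type*} [AddCommMonoid M] (f : ℝ → M) :
    ∑ j, f (rt α j) = f 0 + ∑ i, (f (√(α i)) + f (-√(α i))) := by
  rw [Fin.sum_univ_succ, Fin.sum_univ_add, Finset.sum_add_distrib, rt_zero]
  congr 2
  · exact Finset.sum_congr rfl fun i _ => congrArg f (rt_ip α i)
  · exact Finset.sum_congr rfl fun i _ => congrArg f (rt_im α i)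

variable {α}

theorem rt_inj (hα : ∀ i, 0 < α i) (hinj : Function.Injective α) : Function.Injective (rt α) := by
  have h1 : ∀ i, 0 < √(α i) := fun i => Real.sqrt_pos.2 (hα i)
  have h2 : ∀ i j, √(α i) = √(α j) → i = j := fun i j hij =>
    hinj ((Real.sqrt_inj (hα i).le (hα j).le).1 hij)
  unfold rt
  rw [Fin.cons_injective_iff, Fin.append_injective_iff]
  refine ⟨?_, fun i j hij => h2 i j hij, fun i j hij => h2 i j (neg_injective hij), ?_⟩
  · rintro ⟨j, hj⟩
    induction j using Fin.addCases with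
    | left i =>
      rw [Fin.append_left] at hj
      exact (h1 i).ne' hj
    | right i =>
      rw [Fin.append_right] at hj
      exact (h1 i).ne' (neg_eq_zero.1 hj)
  · intro i j hij
    have := h1 i
    have := h1 j
    linarith

end roots

section poly

variable {h : ℕ} {n : ℝ} {α : Fin h → ℝ}

/-- the polynomial `√n x ∏ (x² - α_i)` -/
noncomputable def FF (n : ℝ) (α : Fin h → ℝ) : ℂ[X] :=
  C ((√n : ℝ) : ℂ) * ∏ j, (X - C ((rt α j : ℝ) : ℂ))

theorem FF_eq (hα : ∀ i, 0 < α i) :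
    FF n α = C ((√n : ℝ) : ℂ) * (X * ∏ i, (X ^ 2 - C ((α i : ℝ) : ℂ))) := by
  unfold FF
  rw [prod_rt α fun x => X - C ((x : ℝ) : ℂ), Complex.ofReal_zero, C_0, sub_zero]
  congr 2
  refine Finset.prod_congr rfl fun i _ => ?_
  have h1 : ((α i : ℝ) : ℂ) = ((√(α i) : ℝ) : ℂ) ^ 2 := by
    rw [← Complex.ofReal_pow, Real.sq_sqrt (hα i).le]
  rw [h1, Complex.ofReal_neg, C_neg, C_pow]
  ring

theorem FF_sq (hn : 0 < n) (hα : ∀ i, 0 < α i) :
    FF n α ^ 2 = C (n : ℂ) * X ^ 2 * (∏ i, (X ^ 2 - C ((α i : ℝ) : ℂ))) ^ 2 := by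
  have h1 : C (n : ℂ) = C ((√n : ℝ) : ℂ) ^ 2 := by
    rw [← C_pow, ← Complex.ofReal_pow, Real.sq_sqrt hn.le]
  rw [FF_eq hα, h1]
  ring

theorem FF_natDegree (hn : 0 < n) : (FF n α).natDegree = h + h + 1 := by
  unfold FF
  have h1 : ((√n : ℝ) : ℂ) ≠ 0 := by
    exact_mod_cast (Real.sqrt_pos.2 hn).ne'
  rw [natDegree_C_mul h1, natDegree_prod_of_monic _ _ fun i _ => monic_X_sub_C _]
  simp only [natDegree_X_sub_C, Finset.sum_const, Finset.card_univ, Fintype.card_fin, smul_eq_mul,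
    mul_one]

theorem FF_eval (j : Fin (h + h + 1)) : (FF n α).eval ((rt α j : ℝ) : ℂ) = 0 := by
  unfold FF
  rw [eval_mul, eval_prod, Finset.prod_eq_zero (Finset.mem_univ j) (by simp), mul_zero]

/-- the base polynomial `n u ∏ (u - α_i)² - c` -/
noncomputable def QQ (n c : ℝ) (α : Fin h → ℝ) : ℂ[X] :=
  C (n : ℂ) * X * (∏ i, (X - C ((α i : ℝ) : ℂ))) ^ 2 - C (c : ℂ)

theorem QQ_comp (c : ℝ) (hn : 0 < n) (hα : ∀ i, 0 < α i) :
    (QQ n c α).comp (X ^ 2) = FF n α ^ 2 - C (c : ℂ) := by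
  unfold QQ
  rw [FF_sq hn hα, sub_comp, mul_comp, mul_comp, pow_comp, prod_comp, C_comp, C_comp, X_comp]
  simp only [sub_comp, X_comp, C_comp]

/-- the critical points -/
theorem crit_pts (hn : 0 < n) (hα : ∀ i, 0 < α i) (hinj : Function.Injective α) {x : ℂ}
    (hx : (derivative (FF n α)).eval x = 0) : ∃ t : ℝ, x = (t : ℂ) ∧ t ≠ 0 ∧
      (∀ i, t ^ 2 - α i ≠ 0) ∧ (t ^ 2)⁻¹ + 2 * ∑ i, (t ^ 2 - α i)⁻¹ = 0 := by
  have h1 : ((√n : ℝ) : ℂ) ≠ 0 := by
    exact_mod_cast (Real.sqrt_pos.2 hn).ne'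
  unfold FF at hx
  rw [derivative_C_mul, eval_mul, eval_C] at hx
  have hd := (mul_eq_zero.1 hx).resolve_left h1
  have hri := rt_inj hα hinj
  have him : x.im = 0 := crit_real (Nat.succ_pos _) (rt α) hri hd
  have hinj' : Function.Injective fun j => ((rt α j : ℝ) : ℂ) := fun i j hij =>
    hri (Complex.ofReal_injective hij)
  obtain ⟨h2, h3⟩ := sum_inv_eq_zero _ hinj' hd
  set t : ℝ := x.re with ht
  have hxt : x = (t : ℂ) := Complex.ext (by simp [ht]) (by simpa using him)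
  have h2' : ∀ j, t - rt α j ≠ 0 := by
    intro j hj
    refine h2 j ?_
    rw [hxt, ← Complex.ofReal_sub, hj, Complex.ofReal_zero]
  have h3' : ∑ j, (t - rt α j)⁻¹ = 0 := by
    have h4 : ((∑ j, (t - rt α j)⁻¹ : ℝ) : ℂ) = 0 := by
      rw [← h3]
      push_cast
      rw [hxt]
    exact_mod_cast h4
  have ht0 : t ≠ 0 := by
    have := h2' 0
    rwa [rt_zero, sub_zero] at this
  have hsq : ∀ i, t ^ 2 - α i = (t - √(α i)) * (t - -√(α i)) := fun i => by
    have := Real.sq_sqrt (hα i).le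
    linear_combination this
  have hm : ∀ i, t - √(α i) ≠ 0 := fun i => by
    have := h2' (ip i)
    rwa [rt_ip] at this
  have hp : ∀ i, t - -√(α i) ≠ 0 := fun i => by
    have := h2' (im i)
    rwa [rt_im] at this
  refine ⟨t, hxt, ht0, fun i => ?_, ?_⟩
  · rw [hsq]
    exact mul_ne_zero (hm i) (hp i)
  · rw [sum_rt α fun y => (t - y)⁻¹, sub_zero] at h3'
    have h5 : ∀ i, (t - √(α i))⁻¹ + (t - -√(α i))⁻¹ = t * (2 * (t ^ 2 - α i)⁻¹) := by
      intro i
      have a1 := hm i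
      have a2 := hp i
      have a3 : t - √(α i) + (t - -√(α i)) = 2 * t := by ring
      rw [inv_add_inv a1 a2, a3, ← hsq]
      ring
    simp only [h5] at h3'
    rw [← Finset.mul_sum, ← Finset.mul_sum] at h3'
    have h6 : t * ((t ^ 2)⁻¹ + 2 * ∑ i, (t ^ 2 - α i)⁻¹) = 0 := by
      have h7 : t * (t ^ 2)⁻¹ = t⁻¹ := by field_simp
      linear_combination h3' + h7
    exact (mul_eq_zero.1 h6).resolve_left ht0

/-- the absolute value at real points -/
theorem FF_norm (hα : ∀ i, 0 < α i) (t : ℝ) :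
    (FF n α).eval (t : ℂ) = ((√n * (t * ∏ i, (t ^ 2 - α i)) : ℝ) : ℂ) := by
  rw [FF_eq hα, eval_mul, eval_mul, eval_C, eval_X, eval_prod]
  push_cast
  congr 3
  funext i
  rw [eval_sub, eval_pow, eval_X, eval_C]

theorem smooth (hn : 0 < n) (hα : ∀ i, 0 < α i) (hinj : Function.Injective α)
    (hs : (QQ n 4 α).Separable) : SmoothPts (RingHom.id ℂ) (FF n α) := by
  intro x z hz
  rw [eval₂_id] at hz ⊢
  by_cases h1 : 2 * z - (FF n α).eval x = 0
  · right
    rw [eval₂_id]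
    have h2 : (FF n α).eval x = 2 * z := by linear_combination -h1
    have h3 : z ^ 2 = 1 := by
      rw [h2] at hz
      linear_combination -hz
    have hz0 : z ≠ 0 := by
      rintro rfl
      norm_num at h3
    refine mul_ne_zero (fun hd => ?_) hz0
    obtain ⟨t, ht, ht0, -, -⟩ := crit_pts hn hα hinj hd
    have hx0 : x ≠ 0 := by
      rw [ht]
      exact_mod_cast ht0
    have hc := QQ_comp (n := n) (α := α) 4 hn hα
    have e1 : (QQ n 4 α).eval (x ^ 2) = 0 := by
      have h4 := congrArg (fun p => p.eval x) hc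
      simp only [eval_comp, eval_sub, eval_pow, eval_X, eval_C] at h4
      rw [h4, h2]
      push_cast
      linear_combination 4 * h3
    have e2 : (derivative (QQ n 4 α)).eval (x ^ 2) = 0 := by
      have h4 := congrArg (fun p => (derivative p).eval x) hc
      simp only [derivative_comp, derivative_sub, derivative_C, sub_zero, derivative_pow,
        eval_mul, eval_comp, eval_pow, eval_X, eval_C, derivative_X, mul_one, hd, mul_zero] at h4
      have h5 : ((2 : ℕ) : ℂ) * x ^ (2 - 1) ≠ 0 := by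
        norm_num
        exact hx0
      exact (mul_eq_zero.1 h4).resolve_left h5
    obtain ⟨a, b, hab⟩ := hs
    have h6 := congrArg (fun p => p.eval (x ^ 2)) hab
    simp only [eval_add, eval_mul, e1, e2, mul_zero, add_zero, eval_one] at h6
    exact zero_ne_one h6
  · exact Or.inl h1

theorem cyc0 : Cyclotomic (0 : ℂ) := by
  refine ⟨algebraMap ℂ _ Complex.I, 4, by norm_num, ?_, ?_⟩
  · rw [← map_pow, Complex.I_pow_four, map_one]
  · rw [← map_inv₀, ← map_add, Complex.inv_I, add_neg_cancel]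

theorem critReal (hn : 0 < n) (hα : ∀ i, 0 < α i) (hinj : Function.Injective α) :
    CritReal (RingHom.id ℂ) (FF n α) := by
  intro x hx
  rw [eval₂_id] at hx ⊢
  obtain ⟨t, ht, -, -, -⟩ := crit_pts hn hα hinj hx
  rw [ht, FF_norm hα, Complex.ofReal_im]

theorem critDist (hn : 0 < n) (hα : ∀ i, 0 < α i) (hinj : Function.Injective α)
    (hc : ∀ y : ℝ, 0 < y → (∀ i, y - α i ≠ 0) → y⁻¹ + 2 * ∑ i, (y - α i)⁻¹ = 0 →
      9 / 64 ≤ n * (y * ∏ i, (y - α i) ^ 2)) : CritDistant (RingHom.id ℂ) (FF n α) 0 := by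
  left
  intro x hx
  rw [eval₂_id] at hx ⊢
  obtain ⟨t, ht, ht0, h1, h2⟩ := crit_pts hn hα hinj hx
  have h3 := hc (t ^ 2) (by positivity) h1 h2
  rw [ht, FF_norm hα, map_zero, sub_zero, Complex.norm_real, Real.norm_eq_abs]
  refine (pow_le_pow_iff_left₀ (by norm_num) (abs_nonneg _) two_ne_zero).1 ?_
  rw [sq_abs, mul_pow, mul_pow, Real.sq_sqrt hn.le, ← Finset.prod_pow]
  norm_num
  linarith

/-- **Independence for the quotient curve.** -/
theorem indep {K : Type*} [Field K] {s : K →+* ℂ} {P : K[X]} {A : Fin (h + 1) → K}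
    (hn : 0 < n) (hα : ∀ i, 0 < α i) (hinj : Function.Injective α)
    (hP : P.map s = QQ n 2 α) (hA0 : A 0 = 0) (hA : ∀ i : Fin h, s (A i.succ) = (α i : ℂ))
    (hs : (QQ n 4 α).Separable)
    (hc : ∀ y : ℝ, 0 < y → (∀ i, y - α i ≠ 0) → y⁻¹ + 2 * ∑ i, (y - α i)⁻¹ = 0 →
      9 / 64 ≤ n * (y * ∏ i, (y - α i) ^ 2)) : IndependentRegulators s P A := by
  have H : Cov s P (FF n α) A (fun j => ((rt α j : ℝ) : ℂ)) :=
    { eq := by
        rw [hP, QQ_comp 2 hn hα]
        congr 1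
      a0 := hA0
      b0 := by rw [rt_zero, Complex.ofReal_zero]
      bp := fun i => by
        rw [rt_ip, hA, ← Complex.ofReal_pow, Real.sq_sqrt (hα i).le]
      bm := fun i => by rw [rt_im, rt_ip, Complex.ofReal_neg] }
  refine descend H (independent (κ := 0) (FF_natDegree hn) cyc0 (by norm_num)
    (fun i j hij => rt_inj hα hinj (Complex.ofReal_injective hij)) FF_eval (smooth hn hα hinj hs)
    (Or.inr (critReal hn hα hinj)) (critDist hn hα hinj hc))

end poly

end Pool.Agent.V5helper77.BB
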