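import Pool.Agent.V5helper77.BB.Alg
import Pool.Agent.N686.EL.Loops
set_option autoImplicit false

/-!
# The criterion for arbitrary complex roots
-/

namespace Pool.Agent.V5helper77.BB

open Polynomial

open Pool.Agent.Results.MP_743d1e_nt.RealRooted (IndependentRegulators)

open Pool.Agent.N686.DI (sum_inv_eq_zero)

open Pool.Agent.N686.EL (crit_sqrt)

section

variable {h : ℕ}

/-- the polynomial `N u ∏ (u - α_i)²` -/
noncomputable def QC {K : Type*} [Field K] (N : K) (α : Fin h → K) : K[X] :=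
  C N * X * (∏ i, (X - C (α i))) ^ 2

theorem QC_map {K L : Type*} [Field K] [Field L] (s : K →+* L) (N : K) (α : Fin h → K) :
    (QC N α).map s = QC (s N) fun i => s (α i) := by
  unfold QC
  simp only [Polynomial.map_mul, Polynomial.map_pow, Polynomial.map_prod, Polynomial.map_sub,
    Polynomial.map_X, Polynomial.map_C]

/-- the roots `0`, `β_i`, `-β_i` -/
def rc (β : Fin h → ℂ) : Fin (h + h + 1) → ℂ := Fin.cons 0 (Fin.append β fun i => -β i)

theorem rc_zero (β : Fin h → ℂ) : rc β 0 = 0 := rfl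

theorem rc_ip (β : Fin h → ℂ) (i : Fin h) : rc β (ip i) = β i := by
  unfold rc ip
  rw [Fin.cons_succ, Fin.append_left]

theorem rc_im (β : Fin h → ℂ) (i : Fin h) : rc β (im i) = -β i := by
  unfold rc im
  rw [Fin.cons_succ, Fin.append_right]

theorem rc_inj {β : Fin h → ℂ} (h0 : ∀ i, β i ≠ 0) (hinj : Function.Injective fun i => β i ^ 2) :
    Function.Injective (rc β) := by
  unfold rc
  rw [Fin.cons_injective_iff, Fin.append_injective_iff]
  refine ⟨?_, fun i j hij => hinj (by simp only [hij]), fun i j hij => hinj (by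
    simp only [neg_inj] at hij
    simp only [hij]), ?_⟩
  · rintro ⟨j, hj⟩
    induction j using Fin.addCases with
    | left i =>
      rw [Fin.append_left] at hj
      exact h0 i hj
    | right i =>
      rw [Fin.append_right] at hj
      exact h0 i (neg_eq_zero.1 hj)
  · intro i j hij
    have h1 : i = j := hinj (by simp only [hij, neg_sq])
    subst h1
    have h2 : 2 * β i = 0 := by linear_combination hij
    exact h0 i ((mul_eq_zero.1 h2).resolve_left two_ne_zero)

/-- the cover -/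
noncomputable def FC (r : ℂ) (β : Fin h → ℂ) : ℂ[X] := C r * ∏ j, (X - C (rc β j))

theorem FC_eq (r : ℂ) (β : Fin h → ℂ) : FC r β = C r * (X * ∏ i, (X ^ 2 - C (β i ^ 2))) := by
  unfold FC
  rw [Fin.prod_univ_succ, Fin.prod_univ_add, rc_zero, C_0, sub_zero, ← Finset.prod_mul_distrib]
  congr 2
  refine Finset.prod_congr rfl fun i _ => ?_
  have e1 : rc β (Fin.castAdd h i).succ = β i := rc_ip β i
  have e2 : rc β (Fin.natAdd h i).succ = -β i := rc_im β i
  rw [e1, e2, C_neg, C_pow]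
  ring

theorem FC_sq (r : ℂ) (β : Fin h → ℂ) :
    (QC (r ^ 2) fun i => β i ^ 2).comp (X ^ 2) = FC r β ^ 2 := by
  unfold QC
  rw [FC_eq, mul_comp, mul_comp, pow_comp, prod_comp, C_comp, X_comp]
  simp only [sub_comp, X_comp, C_comp]
  rw [C_pow]
  ring

theorem FC_natDegree {r : ℂ} (hr : r ≠ 0) (β : Fin h → ℂ) : (FC r β).natDegree = h + h + 1 := by
  unfold FC
  rw [natDegree_C_mul hr, natDegree_prod_of_monic _ _ fun i _ => monic_X_sub_C _]
  simp only [natDegree_X_sub_C, Finset.sum_const, Finset.card_univ, Fintype.card_fin, smul_eq_mul,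
    mul_one]

theorem FC_eval (r : ℂ) (β : Fin h → ℂ) (j : Fin (h + h + 1)) : (FC r β).eval (rc β j) = 0 := by
  unfold FC
  rw [eval_mul, eval_prod, Finset.prod_eq_zero (Finset.mem_univ j) (by simp), mul_zero]

theorem ellipse_sqrt {v : ℂ} (hv : 5 < ‖v ^ 2 - 4‖ + ‖v ^ 2‖) : 3 * √2 < ‖v - 2‖ + ‖v + 2‖ := by
  have h1 : ‖v - 2‖ * ‖v - 2‖ + ‖v + 2‖ * ‖v + 2‖ = 2 * (‖v‖ * ‖v‖ + ‖(2 : ℂ)‖ * ‖(2 : ℂ)‖) := by
    have := parallelogram_law_with_norm ℝ v 2
    linarith
  have h2 : ‖v - 2‖ * ‖v + 2‖ = ‖v ^ 2 - 4‖ := by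
    rw [← norm_mul]
    congr 1
    ring
  have h3 : ‖v ^ 2‖ = ‖v‖ * ‖v‖ := by rw [norm_pow, sq]
  have h4 : ‖(2 : ℂ)‖ = 2 := by norm_num
  rw [h4] at h1
  refine lt_of_pow_lt_pow_left₀ 2 (by positivity) ?_
  rw [mul_pow, Real.sq_sqrt (by norm_num)]
  nlinarith

/-- **The criterion.** -/
theorem indep_ell {K : Type*} [Field K] {s : K →+* ℂ} {P : K[X]} {A : Fin (h + 1) → K} {N : ℂ}
    {α : Fin h → ℂ} (hN : N ≠ 0) (h0 : ∀ i, α i ≠ 0) (hinj : Function.Injective α)
    (hP : P.map s = QC N α - 2) (hA0 : A 0 = 0) (hA : ∀ i : Fin h, s (A i.succ) = α i)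
    (hc : ∀ x : ℂ, (derivative (QC N α)).eval x = 0 → (QC N α).eval x ≠ 0 →
      5 < ‖(QC N α).eval x - 4‖ + ‖(QC N α).eval x‖) : IndependentRegulators s P A := by
  obtain ⟨r, hr⟩ := IsAlgClosed.exists_pow_nat_eq N two_pos
  choose β hβ using fun i => IsAlgClosed.exists_pow_nat_eq (α i) two_pos
  have hα : (fun i => β i ^ 2) = α := funext hβ
  have hβ0 : ∀ i, β i ≠ 0 := fun i hi => h0 i (by rw [← hβ, hi]; ring)
  have hr0 : r ≠ 0 := by
    rintro rfl
    apply hN
    rw [← hr]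
    ring
  have hB : Function.Injective (rc β) := rc_inj hβ0 (by rw [hα]; exact hinj)
  have hsq : (QC N α).comp (X ^ 2) = FC r β ^ 2 := by
    rw [← FC_sq, hr, hα]
  have H : Cov s P (FC r β) A (rc β) :=
    { eq := by
        have e2 : (2 : ℂ[X]) = C 2 := (map_ofNat C 2).symm
        rw [hP, sub_comp, hsq, e2, C_comp]
      a0 := hA0
      b0 := rc_zero β
      bp := fun i => by rw [rc_ip, hA, hβ]
      bm := fun i => by rw [rc_im, rc_ip] }
  refine descend H (crit_sqrt (FC_natDegree hr0 β) (fun x hx => ?_) (rc β) (FC_eval r β) hB)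
  rw [eval₂_id] at hx
  rw [eval₂_id]
  have hd : (derivative (∏ j, (X - C (rc β j)))).eval x = 0 := by
    unfold FC at hx
    rw [derivative_C_mul, eval_mul, eval_C] at hx
    exact (mul_eq_zero.1 hx).resolve_left hr0
  obtain ⟨h1, -⟩ := sum_inv_eq_zero _ hB hd
  have hF0 : (FC r β).eval x ≠ 0 := by
    unfold FC
    rw [eval_mul, eval_C, eval_prod]
    refine mul_ne_zero hr0 (Finset.prod_ne_zero_iff.2 fun j _ => ?_)
    rw [eval_sub, eval_X, eval_C]
    exact h1 j
  have hx0 : x ≠ 0 := by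
    have := h1 0
    rwa [rc_zero, sub_zero] at this
  have e1 : (QC N α).eval (x ^ 2) = (FC r β).eval x ^ 2 := by
    have h4 := congrArg (fun p => p.eval x) hsq
    simpa only [eval_comp, eval_pow, eval_X] using h4
  have e2 : (derivative (QC N α)).eval (x ^ 2) = 0 := by
    have h4 := congrArg (fun p => (derivative p).eval x) hsq
    simp only [derivative_comp, derivative_pow, eval_mul, eval_comp, eval_pow, eval_X, eval_C,
      derivative_X, mul_one, hx, mul_zero] at h4
    have h5 : ((2 : ℕ) : ℂ) * x ^ (2 - 1) ≠ 0 := by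
      norm_num
      exact hx0
    exact (mul_eq_zero.1 h4).resolve_left h5
  have h6 := hc (x ^ 2) e2 (by rw [e1]; exact pow_ne_zero 2 hF0)
  rw [e1] at h6
  exact ellipse_sqrt h6

end

end Pool.Agent.V5helper77.BB
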