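import Pool.Agent.N686.DI.Int
set_option autoImplicit false

/-!
# The values of `n y ∏ (y - a_i)²` at the critical points, for positive integers `a_i`
-/

namespace Pool.Agent.V5helper77.BB

open Pool.Agent.N686.DI (le_crit_value)

variable {h : ℕ}

/-- comparison of the value at a critical point with the value at a point in the same interval -/
theorem le_value (α : Fin h → ℝ) {y m : ℝ} (hy : 0 < y) (hm : 0 < m) (h0 : ∀ i, y - α i ≠ 0)
    (hs : y⁻¹ + 2 * ∑ i, (y - α i)⁻¹ = 0) (h1 : ∀ i, 0 < (m - α i) / (y - α i)) :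
    m * ∏ i, (m - α i) ^ 2 ≤ y * ∏ i, (y - α i) ^ 2 := by
  set d : Fin (h + h + 1) → ℝ := Fin.cons 0 (Fin.append α α) with hd
  have hall : ∀ p : ℝ → Prop, p 0 → (∀ i, p (α i)) → ∀ j, p (d j) := by
    intro p p0 p1 j
    refine Fin.cases ?_ (fun j => ?_) j
    · exact p0
    · rw [hd, Fin.cons_succ]
      induction j using Fin.addCases with
      | left i =>
        rw [Fin.append_left]
        exact p1 i
      | right i =>
        rw [Fin.append_right]
        exact p1 i
  have hprod : ∀ x : ℝ, ∏ j, |x - d j| = |x| * ∏ i, (x - α i) ^ 2 := by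
    intro x
    rw [Fin.prod_univ_succ, Fin.prod_univ_add]
    simp only [hd, Fin.cons_zero, Fin.cons_succ, Fin.append_left, Fin.append_right, sub_zero]
    rw [← Finset.prod_mul_distrib]
    congr 1
    refine Finset.prod_congr rfl fun i _ => ?_
    rw [← sq_abs, sq]
  have hsum : ∑ j, (y - d j)⁻¹ = 0 := by
    rw [Fin.sum_univ_succ, Fin.sum_univ_add]
    simp only [hd, Fin.cons_zero, Fin.cons_succ, Fin.append_left, Fin.append_right, sub_zero]
    rw [← hs]
    ring
  have key := le_crit_value d (x := y) (m := m)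
    (hall (fun t => y - t ≠ 0) (by rw [sub_zero]; exact hy.ne') h0) hsum
    (hall (fun t => 0 < (m - t) / (y - t)) (by rw [sub_zero, sub_zero]; positivity) h1)
  rwa [hprod, hprod, abs_of_pos hy, abs_of_pos hm] at key

theorem prod_ge_one {ι : Type*} (s : Finset ι) (f : ι → ℝ) (hf : ∀ i ∈ s, 1 ≤ f i) :
    1 ≤ ∏ i ∈ s, f i := by
  calc (1 : ℝ) = ∏ _i ∈ s, (1 : ℝ) := by simp
    _ ≤ ∏ i ∈ s, f i := Finset.prod_le_prod (fun _ _ => zero_le_one) hf

theorem half_aux (N a : ℤ) (h1 : a ≠ N) (h2 : a ≠ N + 1) : 9 / 4 ≤ ((N : ℝ) + 1 / 2 - a) ^ 2 := by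
  rcases lt_or_gt_of_ne h1 with h | h
  · have h3 : (a : ℝ) + 1 ≤ N := by exact_mod_cast h
    nlinarith
  · have h3 : (N : ℝ) + 2 ≤ a := by exact_mod_cast (by omega : N + 2 ≤ a)
    nlinarith

/-- **The critical values.** -/
theorem int_crit {n : ℝ} (hn : 1 ≤ n) (a : Fin h → ℤ) (ha : ∀ i, 0 < a i)
    (hinj : Function.Injective a)
    (hex : ¬ (h = 2 ∧ n < 3 / 2 ∧ (∃ i, a i = 1) ∧ ∃ i, a i = 2)) {y : ℝ} (hy : 0 < y)
    (h0 : ∀ i, y - a i ≠ 0) (hs : y⁻¹ + 2 * ∑ i, (y - a i)⁻¹ = 0) :
    9 / 64 ≤ n * (y * ∏ i, (y - a i) ^ 2) := by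
  classical
  have hpos : ∀ i, (1 : ℝ) ≤ a i := fun i => by exact_mod_cast ha i
  by_cases hall : ∀ i, y < a i
  · -- the interval of the origin
    have h1 := le_value (fun i => (a i : ℝ)) hy (m := 1 / 3) (by norm_num) h0 hs (fun i =>
      div_pos_of_neg_of_neg (by linarith [hpos i]) (by linarith [hall i]))
    have h2 : 4 / 9 ≤ ∏ i, (1 / 3 - (a i : ℝ)) ^ 2 := by
      have h3 : ∀ i, a i ≠ 1 → 1 ≤ (1 / 3 - (a i : ℝ)) ^ 2 := by
        intro i hi
        have h4 : (2 : ℝ) ≤ a i := by
          have := ha i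
          exact_mod_cast (by omega : 2 ≤ a i)
        nlinarith
      by_cases h5 : ∃ i, a i = 1
      · obtain ⟨i, hi⟩ := h5
        rw [← Finset.mul_prod_erase Finset.univ _ (Finset.mem_univ i), hi]
        have h6 := prod_ge_one (Finset.univ.erase i) (fun i => (1 / 3 - (a i : ℝ)) ^ 2)
          fun j hj => h3 j fun h7 => Finset.ne_of_mem_erase hj (hinj (h7.trans hi.symm))
        norm_num
        nlinarith
      · push Not at h5
        have h6 := prod_ge_one Finset.univ (fun i => (1 / 3 - (a i : ℝ)) ^ 2)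
          fun j _ => h3 j (h5 j)
        linarith
    have h7 : 0 ≤ y * ∏ i, (y - (a i : ℝ)) ^ 2 :=
      mul_nonneg hy.le (Finset.prod_nonneg fun i _ => sq_nonneg _)
    nlinarith
  push Not at hall
  obtain ⟨i0, hi0⟩ := hall
  set N : ℤ := ⌊y⌋ with hN
  have hN1 : (N : ℝ) ≤ y := Int.floor_le y
  have hN2 : y < N + 1 := Int.lt_floor_add_one y
  have hN3 : a i0 ≤ N := Int.le_floor.2 hi0
  have hN4 : 1 ≤ N := by
    have := ha i0
    omega
  have hN5 : (1 : ℝ) ≤ N := by exact_mod_cast hN4
  have h7 : 0 ≤ y * ∏ i, (y - (a i : ℝ)) ^ 2 :=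
    mul_nonneg hy.le (Finset.prod_nonneg fun i _ => sq_nonneg _)
  rcases hN1.eq_or_lt with he | hlt
  · -- `y` is an integer
    have h1 : ∀ i ∈ Finset.univ, 1 ≤ (y - (a i : ℝ)) ^ 2 := by
      intro i _
      have h2 := h0 i
      rw [← he] at h2 ⊢
      have h3 : N - a i ≠ 0 := by
        intro h
        apply h2
        exact_mod_cast congrArg (fun y : ℤ => (y : ℝ)) h
      have h4 : (1 : ℝ) ≤ |((N - a i : ℤ) : ℝ)| := by exact_mod_cast Int.one_le_abs h3
      rw [← sq_abs]
      push_cast at h4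
      nlinarith
    have h2 := prod_ge_one Finset.univ (fun i => (y - (a i : ℝ)) ^ 2) h1
    have h3 : 1 ≤ y * ∏ i, (y - (a i : ℝ)) ^ 2 := by nlinarith
    nlinarith
  · have hm : (0 : ℝ) < N + 1 / 2 := by linarith
    have h1 := le_value (fun i => (a i : ℝ)) hy (m := N + 1 / 2) hm h0 hs (fun i => by
      rcases le_or_gt (a i) N with h | h
      · have h2 : (a i : ℝ) ≤ N := by exact_mod_cast h
        exact div_pos (by linarith) (by linarith)
      · have h2 : (N : ℝ) + 1 ≤ a i := by exact_mod_cast (by omega : N + 1 ≤ a i)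
        exact div_pos_of_neg_of_neg (by linarith) (by linarith))
    set f : Fin h → ℝ := fun i => ((N : ℝ) + 1 / 2 - (a i : ℝ)) ^ 2 with hf
    have hbig : ∀ i, a i ≠ N → a i ≠ N + 1 → 9 / 4 ≤ f i := fun i h2 h3 => half_aux N (a i) h2 h3
    have hN' : ∀ i, a i = N → f i = 1 / 4 := fun i h2 => by
      simp only [hf, h2]
      ring
    have hN1' : ∀ i, a i = N + 1 → f i = 1 / 4 := fun i h2 => by
      simp only [hf, h2]
      push_cast
      ring
    have h1' : ((N : ℝ) + 1 / 2) * ∏ i, f i ≤ y * ∏ i, (y - (a i : ℝ)) ^ 2 := h1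
    by_cases hboth : (∃ i, a i = N) ∧ ∃ j, a j = N + 1
    · obtain ⟨⟨i, hi⟩, j, hj⟩ := hboth
      have hij : j ≠ i := by
        rintro rfl
        omega
      have hjm : j ∈ Finset.univ.erase i := Finset.mem_erase.2 ⟨hij, Finset.mem_univ j⟩
      have hother : ∀ k ∈ (Finset.univ.erase i).erase j, 9 / 4 ≤ f k := by
        intro k hk
        have hk1 := Finset.ne_of_mem_erase hk
        have hk2 := Finset.ne_of_mem_erase (Finset.mem_of_mem_erase hk)
        exact hbig k (fun h => hk2 (hinj (h.trans hi.symm))) fun h => hk1 (hinj (h.trans hj.symm))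
      have hprod : ∏ i, f i = 1 / 16 * ∏ k ∈ (Finset.univ.erase i).erase j, f k := by
        rw [← Finset.mul_prod_erase Finset.univ _ (Finset.mem_univ i),
          ← Finset.mul_prod_erase _ _ hjm, hN' i hi, hN1' j hj]
        ring
      by_cases h2 : h = 2
      · have h3 : 1 ≤ ∏ k ∈ (Finset.univ.erase i).erase j, f k :=
          prod_ge_one _ _ fun k hk => by linarith [hother k hk]
        have h4 : 9 / 4 ≤ n * (N + 1 / 2) := by
          by_cases h5 : N = 1
          · have h6 : ¬ n < 3 / 2 := fun h6 => hex ⟨h2, h6, ⟨i, hi.trans h5⟩, j, by rw [hj, h5]; norm_num⟩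
            rw [h5]
            push_cast
            linarith
          · have h6 : (2 : ℝ) ≤ N := by exact_mod_cast (by omega : 2 ≤ N)
            nlinarith
        have h5 : 1 / 16 ≤ ∏ i, f i := by
          rw [hprod]
          linarith
        have h6 : n * ((N + 1 / 2) * (1 / 16)) ≤ n * (((N : ℝ) + 1 / 2) * ∏ i, f i) := by
          gcongr
        have h8 : n * (((N : ℝ) + 1 / 2) * ∏ i, f i) ≤ n * (y * ∏ i, (y - (a i : ℝ)) ^ 2) := by
          gcongr
        linarith
      · obtain ⟨k, hk⟩ : ((Finset.univ.erase i).erase j).Nonempty := by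
          rw [← Finset.card_pos, Finset.card_erase_of_mem hjm, Finset.card_erase_of_mem
            (Finset.mem_univ i), Finset.card_univ, Fintype.card_fin]
          have h3 : i.val < h := i.2
          have h4 : j.val < h := j.2
          have h5 : j.val ≠ i.val := fun h => hij (Fin.ext h)
          omega
        have h3 : 9 / 4 ≤ ∏ k ∈ (Finset.univ.erase i).erase j, f k := by
          rw [← Finset.mul_prod_erase _ _ hk]
          have h4 := hother k hk
          have h5 : 1 ≤ ∏ x ∈ ((Finset.univ.erase i).erase j).erase k, f x :=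
            prod_ge_one _ _ fun x hx => by linarith [hother x (Finset.mem_of_mem_erase hx)]
          nlinarith
        have h5 : 9 / 64 ≤ ∏ i, f i := by
          rw [hprod]
          linarith
        nlinarith
    · have h3 : 1 / 4 ≤ ∏ i, f i := by
        by_cases h4 : ∃ i, a i = N ∨ a i = N + 1
        · obtain ⟨i, hi⟩ := h4
          have h5 : f i = 1 / 4 := hi.elim (hN' i) (hN1' i)
          rw [← Finset.mul_prod_erase Finset.univ _ (Finset.mem_univ i), h5]
          have h6 : 1 ≤ ∏ k ∈ Finset.univ.erase i, f k := by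
            refine prod_ge_one _ _ fun k hk => ?_
            have hki := Finset.ne_of_mem_erase hk
            have h7 : a k ≠ a i := fun h => hki (hinj h)
            have h8 := hbig k (fun h => by
              rcases hi with h9 | h9
              · exact h7 (h.trans h9.symm)
              · exact hboth ⟨⟨k, h⟩, i, h9⟩) (fun h => by
              rcases hi with h9 | h9
              · exact hboth ⟨⟨i, h9⟩, k, h⟩
              · exact h7 (h.trans h9.symm))
            linarith
          linarith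
        · push Not at h4
          have h6 : 1 ≤ ∏ k, f k := prod_ge_one _ _ fun k _ => by
            linarith [hbig k (h4 k).1 (h4 k).2]
          linarith
      nlinarith

end Pool.Agent.V5helper77.BB
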