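import Pool.Agent.V5helper77.BB.Sq
set_option autoImplicit false

/-!
# The smooth model `v² = N u (N u ∏ (u - α_i)² - 4)`
-/

namespace Pool.Agent.V5helper77.BB

open Polynomial

open Pool.Agent.TH826.HD

open Pool.Agent.Results.MP_743d1e_nt.RealRooted (IndependentRegulators Cyclotomic)

section sep

variable {K : Type*} [Field K] {h : ℕ} {n : K} {a : Fin h → K}

theorem map_sub_ofNat (s : K →+* ℂ) : (QC n a - C 4).map s = QC (s n) (fun i => s (a i)) - C 4 := by
  rw [Polynomial.map_sub, QC_map, Polynomial.map_C, map_ofNat]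

theorem sep_of_crit (s : K →+* ℂ) (hc : ∀ x : ℂ,
    (derivative (QC (s n) fun i => s (a i))).eval x = 0 →
      (QC (s n) fun i => s (a i)).eval x ≠ 4) : (QC n a - C 4).Separable := by
  rw [← separable_map s, map_sub_ofNat, separable_def,
    isCoprime_iff_aeval_ne_zero_of_isAlgClosed ℂ ℂ]
  intro x
  by_contra hcon
  push Not at hcon
  obtain ⟨h1, h2⟩ := hcon
  rw [coe_aeval_eq_eval, eval_sub, eval_C, sub_eq_zero] at h1
  rw [coe_aeval_eq_eval, derivative_sub, derivative_C, sub_zero] at h2
  exact hc x h2 h1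

theorem sqfree [CharZero K] (hn : n ≠ 0) (h4 : (QC n a - C 4).Separable) :
    Squarefree (C n * X * (QC n a - C 4)) := by
  refine Separable.squarefree (Separable.mul ?_ h4 ?_)
  · exact Separable.unit_mul (isUnit_C.2 (isUnit_iff_ne_zero.2 hn)) separable_X
  · refine ⟨C (1 / 4) * (∏ i, (X - C (a i))) ^ 2, -C (1 / 4), ?_⟩
    have e : C (1 / 4 : K) * C 4 = 1 := by
      rw [← C_mul]
      norm_num
    unfold QC
    linear_combination e

theorem sep_of_sqfree [CharZero K] (hs : Squarefree (C n * X * (QC n a - C 4))) :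
    (QC n a - C 4).Separable :=
  PerfectField.separable_iff_squarefree.2 (hs.squarefree_of_dvd (dvd_mul_left _ _))

theorem prod_natDegree : (∏ i, (X - C (a i))).natDegree = h := by
  rw [natDegree_prod_of_monic _ _ fun i _ => monic_X_sub_C _]
  simp only [natDegree_X_sub_C, Finset.sum_const, Finset.card_univ, Fintype.card_fin, smul_eq_mul,
    mul_one]

theorem prod_monic : (∏ i, (X - C (a i))).Monic := monic_prod_of_monic _ _ fun i _ => monic_X_sub_C _

theorem QC_natDegree (hn : n ≠ 0) : (QC n a).natDegree = 2 * h + 1 := by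
  unfold QC
  rw [mul_assoc, natDegree_C_mul hn, natDegree_mul X_ne_zero (pow_ne_zero 2 prod_monic.ne_zero),
    natDegree_X, natDegree_pow, prod_natDegree]
  ring

theorem QC_sub_natDegree (hn : n ≠ 0) (c : K) : (QC n a - C c).natDegree = 2 * h + 1 := by
  rw [natDegree_sub_C, QC_natDegree hn]

theorem disc_natDegree (hn : n ≠ 0) : (C n * X * (QC n a - C 4)).natDegree = 2 * h + 2 := by
  have h1 : QC n a - C 4 ≠ 0 := by
    intro h1
    have h2 := QC_sub_natDegree (a := a) hn 4
    rw [h1, natDegree_zero] at h2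
    omega
  rw [mul_assoc, natDegree_C_mul hn, natDegree_mul X_ne_zero h1, natDegree_X, QC_sub_natDegree hn]
  ring

theorem QC_eval_root (i : Fin h) : (QC n a).eval (a i) = 0 := by
  unfold QC
  rw [eval_mul, eval_pow, eval_prod, Finset.prod_eq_zero (Finset.mem_univ i) (by simp)]
  ring

theorem QC_eval_zero : (QC n a).eval 0 = 0 := by
  unfold QC
  rw [eval_mul, eval_mul, eval_X]
  ring

end sep

section integral

variable {K : Type*} [Field K] {h : ℕ} {n : K} {a : Fin h → K}

/-- all coefficients are algebraic integers -/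
def IntC (p : K[X]) : Prop := ∀ j, IsIntegral ℤ (p.coeff j)

theorem IntC.mul {p q : K[X]} (hp : IntC p) (hq : IntC q) : IntC (p * q) := fun j => by
  rw [coeff_mul]
  exact IsIntegral.sum _ fun x _ => (hp _).mul (hq _)

theorem IntC.sub {p q : K[X]} (hp : IntC p) (hq : IntC q) : IntC (p - q) := fun j => by
  rw [coeff_sub]
  exact (hp _).sub (hq _)

theorem IntC.C' {c : K} (hc : IsIntegral ℤ c) : IntC (C c) := fun j => by
  rw [coeff_C]
  split_ifs
  · exact hc
  · exact isIntegral_zero

theorem IntC.X' : IntC (X : K[X]) := fun j => by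
  rw [coeff_X]
  split_ifs
  · exact isIntegral_one
  · exact isIntegral_zero

theorem IntC.QC' (hn : IsIntegral ℤ n) (ha : ∀ i, IsIntegral ℤ (a i)) : IntC (QC n a) := by
  have h1 : IntC (∏ i, (X - C (a i))) := by
    refine Finset.prod_induction _ IntC (fun p q => IntC.mul) ?_ fun i _ =>
      IntC.X'.sub (IntC.C' (ha i))
    rw [← C_1]
    exact IntC.C' isIntegral_one
  unfold QC
  rw [sq]
  exact ((IntC.C' hn).mul IntC.X').mul (h1.mul h1)

end integral

section field

variable {K : Type*} [Field K] {h : ℕ} {n : K} {a : Fin h → K} {M : Type*} [Field M]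

theorem model {P : K[X]} (hP : P = QC n a - C 2) [Algebra (PRing P) M]
    [IsFractionRing (PRing P) M] : ∃ v : M, v ^ 2 =
      algebraMap (PRing P) M (ppol P (C n * X * (QC n a - C 4))) ∧
    2 * algebraMap (PRing P) M (pz P) = algebraMap (PRing P) M (ppol P P) +
        v * algebraMap (PRing P) M (ppol P (∏ i, (X - C (a i)))) := by
  set ι : K[X] →+* M := (algebraMap (PRing P) M).comp (ppol P) with hι
  have hinj : Function.Injective (algebraMap (PRing P) M) := IsFractionRing.injective _ _
  have hG : ι (∏ i, (X - C (a i))) ≠ 0 := by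
    intro h0
    refine ppol_ne_zero (F := P) (prod_monic (a := a)).ne_zero (hinj ?_)
    rw [map_zero]
    exact h0
  set w : M := algebraMap (PRing P) M (pz P) with hw
  have hwe : w ^ 2 - ι P * w + 1 = 0 := by
    have h1 := congrArg (algebraMap (PRing P) M) (pz_eq P)
    simp only [map_add, map_sub, map_mul, map_pow, map_one, map_zero] at h1
    exact h1
  refine ⟨(2 * w - ι P) / ι (∏ i, (X - C (a i))), ?_, ?_⟩
  · show _ = ι (C n * X * (QC n a - C 4))
    rw [div_pow, div_eq_iff (pow_ne_zero 2 hG), ← map_pow, ← map_mul]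
    have e1 : C n * X * (QC n a - C 4) * (∏ i, (X - C (a i))) ^ 2 = P ^ 2 - C 4 := by
      have e3 : QC n a = C n * X * (∏ i, (X - C (a i))) ^ 2 := rfl
      have e4 : C n * X * (QC n a - C 4) * (∏ i, (X - C (a i))) ^ 2 =
          QC n a * (QC n a - C 4) := by
        rw [e3]
        ring
      have e5 : (C (4 : K) : K[X]) = 4 := map_ofNat C 4
      have e6 : (C (2 : K) : K[X]) = 2 := map_ofNat C 2
      rw [e4, hP, e5, e6]
      ring
    rw [e1, map_sub, map_pow]
    have e5 : ι (C 4) = 4 := by
      rw [show (C (4 : K) : K[X]) = 4 from map_ofNat C 4, map_ofNat]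
    rw [e5]
    linear_combination 4 * hwe
  · show 2 * w = ι P + _ * ι (∏ i, (X - C (a i)))
    rw [div_mul_cancel₀ _ hG]
    ring

end field

end Pool.Agent.V5helper77.BB
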