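import Pool.Agent.V5helper77.BB.Ell
import Pool.Agent.V5helper77.BB.Crit
import Pool.Agent.V5helper77.BB.Int
set_option autoImplicit false

/-!
# Critical points of `N u ∏ (u - α_i)²`; the smooth model
-/

namespace Pool.Agent.V5helper77.BB

open Polynomial

open Pool.Agent.Results.MP_743d1e_nt.RealRooted (IndependentRegulators)

open Pool.Agent.N686.DI (real_of_crit le_crit_value mm mm_succ mm_two mm_five mm_pos mm_le_succ
  mm_ge_five mm_le_prod)

section logder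

variable {h : ℕ}

theorem eval_der_prod {m : ℕ} (d : Fin m → ℂ) {x : ℂ} (h0 : ∀ i, x - d i ≠ 0) :
    (derivative (∏ i, (X - C (d i)))).eval x = (∏ i, (x - d i)) * ∑ i, (x - d i)⁻¹ := by
  classical
  rw [derivative_prod_finset]
  simp only [eval_finsetSum, eval_mul, eval_prod, eval_sub, eval_X, eval_C, derivative_sub,
    derivative_X, derivative_C, sub_zero, eval_one, mul_one]
  rw [Finset.mul_sum]
  refine Finset.sum_congr rfl fun i _ => ?_
  rw [← Finset.mul_prod_erase Finset.univ (fun j => x - d j) (Finset.mem_univ i)]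
  have := h0 i
  field_simp

/-- the roots with multiplicities -/
def dc {R : Type*} [Zero R] (α : Fin h → R) : Fin (h + h + 1) → R := Fin.cons 0 (Fin.append α α)

theorem dc_all {R : Type*} [Zero R] {α : Fin h → R} {p : R → Prop} (p0 : p 0)
    (p1 : ∀ i, p (α i)) (j : Fin (h + h + 1)) : p (dc α j) := by
  refine Fin.cases ?_ (fun j => ?_) j
  · exact p0
  · rw [dc, Fin.cons_succ]
    induction j using Fin.addCases with
    | left i =>
      rw [Fin.append_left]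
      exact p1 i
    | right i =>
      rw [Fin.append_right]
      exact p1 i

theorem dc_prod {R M : Type*} [Zero R] [CommMonoid M] (α : Fin h → R) (f : R → M) :
    ∏ j, f (dc α j) = f 0 * (∏ i, f (α i)) ^ 2 := by
  rw [Fin.prod_univ_succ, Fin.prod_univ_add]
  simp only [dc, Fin.cons_zero, Fin.cons_succ, Fin.append_left, Fin.append_right]
  rw [sq]

theorem dc_sum {R M : Type*} [Zero R] [AddCommMonoid M] (α : Fin h → R) (f : R → M) :
    ∑ j, f (dc α j) = f 0 + (∑ i, f (α i) + ∑ i, f (α i)) := by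
  rw [Fin.sum_univ_succ, Fin.sum_univ_add]
  simp only [dc, Fin.cons_zero, Fin.cons_succ, Fin.append_left, Fin.append_right]

variable {N : ℂ} {α : Fin h → ℂ} {x : ℂ}

theorem QC_prod (N : ℂ) (α : Fin h → ℂ) : QC N α = C N * ∏ j, (X - C (dc α j)) := by
  rw [dc_prod α fun y => X - C y, C_0, sub_zero]
  unfold QC
  ring

theorem QC_eval (N : ℂ) (α : Fin h → ℂ) (x : ℂ) :
    (QC N α).eval x = N * (x * (∏ i, (x - α i)) ^ 2) := by
  unfold QC
  simp only [eval_mul, eval_C, eval_X, eval_pow, eval_prod, eval_sub]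
  ring

theorem QC_der (hx : x ≠ 0) (h0 : ∀ i, x - α i ≠ 0) : (derivative (QC N α)).eval x =
    N * (x * (∏ i, (x - α i)) ^ 2) * (x⁻¹ + (∑ i, (x - α i)⁻¹ + ∑ i, (x - α i)⁻¹)) := by
  rw [QC_prod, derivative_C_mul, eval_mul, eval_C,
    eval_der_prod _ (dc_all (p := fun y => x - y ≠ 0) (by rwa [sub_zero]) h0),
    dc_prod α fun y => x - y, dc_sum α fun y => (x - y)⁻¹, sub_zero]
  ring

/-- the critical points are real, if the roots are real -/
theorem QC_real {a : Fin h → ℝ} (hd : (derivative (QC N fun i => ((a i : ℝ) : ℂ))).eval x = 0)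
    (hv : (QC N fun i => ((a i : ℝ) : ℂ)).eval x ≠ 0) : ∃ t : ℝ, x = (t : ℂ) ∧ t ≠ 0 ∧
      (∀ i, t - a i ≠ 0) ∧ t⁻¹ + (∑ i, (t - a i)⁻¹ + ∑ i, (t - a i)⁻¹) = 0 := by
  rw [QC_eval] at hv
  have hx : x ≠ 0 := by
    rintro rfl
    apply hv
    ring
  have h0 : ∀ i, x - ((a i : ℝ) : ℂ) ≠ 0 := by
    intro i hi
    apply hv
    rw [Finset.prod_eq_zero (Finset.mem_univ i) hi]
    ring
  rw [QC_der hx h0] at hd
  have hs := (mul_eq_zero.1 hd).resolve_left hv
  have him : x.im = 0 := by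
    refine real_of_crit (dc a) (Nat.succ_pos _)
      (dc_all (p := fun y : ℝ => x - (y : ℂ) ≠ 0) (by simpa using hx) h0) ?_
    rw [dc_sum a fun y => (x - (y : ℂ))⁻¹, Complex.ofReal_zero, sub_zero]
    exact hs
  have hxt : x = ((x.re : ℝ) : ℂ) := Complex.ext (by simp) (by simpa using him)
  refine ⟨x.re, hxt, ?_, fun i hi => h0 i ?_, ?_⟩
  · intro h1
    apply hx
    rw [hxt, h1, Complex.ofReal_zero]
  · rw [hxt, ← Complex.ofReal_sub, hi, Complex.ofReal_zero]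
  · have h4 : (((x.re)⁻¹ + (∑ i, (x.re - a i)⁻¹ + ∑ i, (x.re - a i)⁻¹) : ℝ) : ℂ) = 0 := by
      rw [← hs]
      conv_rhs => rw [hxt]
      push_cast
      rfl
    exact_mod_cast h4

end logder

section integers

variable {h : ℕ}

theorem mm_six : mm 6 = 225 / 64 := by
  rw [mm_succ, mm_five]
  norm_num

theorem mm_ge_six {n : ℕ} (hn : 6 ≤ n) : 225 / 64 ≤ mm n := by
  induction n, hn using Nat.le_induction with
  | base => rw [mm_six]
  | succ n hn ih => exact ih.trans (mm_le_succ (by omega))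

theorem mm_mul_five (hh : 5 ≤ h) : 9 / 2 < mm h * mm (h + 1) := by
  have h1 := mm_ge_five hh
  have h2 := mm_ge_six (by omega : 6 ≤ h + 1)
  nlinarith

theorem mm_mul_ge (h : ℕ) : 3 / 32 ≤ mm h * mm (h + 1) := by
  have m0 : mm 0 = 1 := by simp [mm]
  have m1 : mm 1 = 1 / 2 := by
    rw [mm_succ, m0]
    norm_num
  have m3 : mm 3 = 3 / 8 := by
    rw [mm_succ, mm_two]
    norm_num
  have hge : ∀ n, 3 ≤ n → 3 / 8 ≤ mm n := by
    intro n hn
    induction n, hn using Nat.le_induction with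
    | base => rw [m3]
    | succ n hn ih => exact ih.trans (mm_le_succ (by omega))
  by_cases h3 : 3 ≤ h
  · have h1 := hge h h3
    have h2 := hge (h + 1) (by omega)
    nlinarith
  · have h4 : h = 0 ∨ h = 1 ∨ h = 2 := by omega
    rcases h4 with rfl | rfl | rfl
    · rw [m0, m1]
      norm_num
    · rw [m1, mm_two]
      norm_num
    · rw [mm_two, m3]
      norm_num

theorem half_far {h : ℕ} (a : Fin h → ℤ) (hinj : Function.Injective a) (N : ℤ) (i : Fin h) :
    (|(a i : ℝ)| - 1 / 2) / 2 * (3 / 32) ≤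
      |(N : ℝ) + 1 / 2| * (∏ i, |(N : ℝ) + 1 / 2 - (a i : ℝ)|) ^ 2 := by
  obtain ⟨k, rfl⟩ : ∃ k, h = k + 1 := ⟨h - 1, by have := i.2; omega⟩
  have h1 := mm_le_prod a hinj N
  have h2 := mm_le_prod (fun j => a (i.succAbove j))
    (fun j j' hj => Fin.succAbove_right_injective (hinj hj)) N
  have h3 := mm_mul_ge k
  rw [Fin.prod_univ_succAbove _ i] at h1 ⊢
  set x : ℝ := |(N : ℝ) + 1 / 2 - (a i : ℝ)| with hx
  set y : ℝ := ∏ j, |(N : ℝ) + 1 / 2 - (a (i.succAbove j) : ℝ)| with hy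
  set m : ℝ := |(N : ℝ) + 1 / 2| with hm
  have e1 : 1 / 2 ≤ x := by
    have := Pool.Agent.N686.DI.abs_sub_half N (a i)
    rw [hx, this]
    have : (0 : ℝ) ≤ ((Pool.Agent.N686.DI.enu N (a i) / 2 : ℕ) : ℝ) := Nat.cast_nonneg _
    linarith
  have e2 : 1 / 2 ≤ m := by
    have h5 := Pool.Agent.N686.DI.abs_sub_half N 0
    rw [Int.cast_zero, sub_zero] at h5
    rw [hm, h5]
    have : (0 : ℝ) ≤ ((Pool.Agent.N686.DI.enu N 0 / 2 : ℕ) : ℝ) := Nat.cast_nonneg _
    linarith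
  have e3 : |(a i : ℝ)| ≤ m + x := by
    have h5 := abs_sub ((N : ℝ) + 1 / 2) ((N : ℝ) + 1 / 2 - (a i : ℝ))
    rw [sub_sub_cancel] at h5
    exact h5
  have e4 : (|(a i : ℝ)| - 1 / 2) / 2 ≤ m * x := by nlinarith
  have hy0 : 0 ≤ y := Finset.prod_nonneg fun j _ => abs_nonneg _
  have e5 : 3 / 32 ≤ (x * y) * y := by
    have h6 : mm (k + 1) * mm k ≤ (x * y) * y := mul_le_mul h1 h2 (mm_pos _).le (by positivity)
    linarith [mul_comm (mm k) (mm (k + 1))]
  have e6 : m * (x * y) ^ 2 = (m * x) * ((x * y) * y) := by ring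
  rw [e6]
  by_cases hneg : (|(a i : ℝ)| - 1 / 2) / 2 ≤ 0
  · have h7 : 0 ≤ m * x := by positivity
    have h8 : 0 ≤ (m * x) * ((x * y) * y) := by positivity
    nlinarith
  · push Not at hneg
    exact mul_le_mul e4 e5 (by norm_num) (by positivity)

/-- **The critical values for integral roots.** -/
theorem int_ell {N : ℂ} {a : Fin h → ℤ} (ha : ∀ i, a i ≠ 0) (hinj : Function.Injective a)
    (hN : 9 / 2 < ‖N‖ * (mm h * mm (h + 1)) ∨ ∃ i, 96 < ‖N‖ * (|(a i : ℝ)| - 1 / 2)) {x : ℂ}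
    (hd : (derivative (QC N fun i => ((a i : ℤ) : ℂ))).eval x = 0)
    (hv : (QC N fun i => ((a i : ℤ) : ℂ)).eval x ≠ 0) :
    5 < ‖(QC N fun i => ((a i : ℤ) : ℂ)).eval x - 4‖ + ‖(QC N fun i => ((a i : ℤ) : ℂ)).eval x‖ := by
  have hcast : (fun i => ((a i : ℤ) : ℂ)) = fun i => (((a i : ℤ) : ℝ) : ℂ) := funext fun i => by
    push_cast
    rfl
  rw [hcast] at hd hv ⊢
  obtain ⟨t, hxt, ht0, h0, hs⟩ := QC_real hd hv
  set m : ℝ := (⌊t⌋ : ℝ) + 1 / 2 with hm
  have hN1 : (⌊t⌋ : ℝ) ≤ t := Int.floor_le t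
  have hN2 : t < ⌊t⌋ + 1 := Int.lt_floor_add_one t
  have hsign : ∀ b : ℤ, t - b ≠ 0 → 0 < (m - b) / (t - b) := by
    intro b hb
    rcases le_or_gt b ⌊t⌋ with h | h
    · have h2 : (b : ℝ) ≤ ⌊t⌋ := by exact_mod_cast h
      have h3 : 0 < t - b := lt_of_le_of_ne (by linarith) (Ne.symm hb)
      exact div_pos (by linarith) h3
    · have h2 : (⌊t⌋ : ℝ) + 1 ≤ b := by exact_mod_cast (by omega : ⌊t⌋ + 1 ≤ b)
      exact div_pos_of_neg_of_neg (by linarith) (by linarith)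
  have key := le_crit_value (dc fun i => (a i : ℝ)) (x := t) (m := m)
    (dc_all (p := fun y : ℝ => t - y ≠ 0) (by rwa [sub_zero]) h0)
    (by
      rw [dc_sum _ fun y : ℝ => (t - y)⁻¹, sub_zero]
      exact hs)
    (dc_all (p := fun y : ℝ => 0 < (m - y) / (t - y)) (by
      have := hsign 0 (by simpa using ht0)
      simpa using this) fun i => hsign (a i) (h0 i))
  rw [dc_prod _ fun y : ℝ => |m - y|, dc_prod _ fun y : ℝ => |t - y|, sub_zero, sub_zero] at key
  have h1 := mm_le_prod a hinj ⌊t⌋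
  have h2 := mm_le_prod (Fin.cons 0 a : Fin (h + 1) → ℤ) (by
    rw [Fin.cons_injective_iff]
    exact ⟨fun ⟨i, hi⟩ => ha i hi, hinj⟩) ⌊t⌋
  rw [Fin.prod_univ_succ] at h2
  simp only [Fin.cons_zero, Fin.cons_succ, Int.cast_zero, sub_zero] at h2
  have hval : ‖(QC N fun i => (((a i : ℤ) : ℝ) : ℂ)).eval x‖ =
      ‖N‖ * (|t| * (∏ i, |t - (a i : ℝ)|) ^ 2) := by
    rw [QC_eval, hxt, norm_mul, norm_mul, norm_pow, norm_prod, Complex.norm_real, Real.norm_eq_abs]
    congr 4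
    funext i
    rw [← Complex.ofReal_sub, Complex.norm_real, Real.norm_eq_abs]
  have h3 : mm h * mm (h + 1) ≤ |m| * (∏ i, |m - (a i : ℝ)|) ^ 2 := by
    have h4 : mm h * mm (h + 1) ≤ (∏ i, |m - (a i : ℝ)|) * (|m| * ∏ i, |m - (a i : ℝ)|) :=
      mul_le_mul h1 h2 (mm_pos _).le (Finset.prod_nonneg fun i _ => abs_nonneg _)
    calc mm h * mm (h + 1) ≤ (∏ i, |m - (a i : ℝ)|) * (|m| * ∏ i, |m - (a i : ℝ)|) := h4
      _ = |m| * (∏ i, |m - (a i : ℝ)|) ^ 2 := by ring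
  have h5 : 9 / 2 < ‖(QC N fun i => (((a i : ℤ) : ℝ) : ℂ)).eval x‖ := by
    rw [hval]
    rcases hN with hN | ⟨i, hi⟩
    · have h6 := mul_le_mul_of_nonneg_left (h3.trans key) (norm_nonneg N)
      linarith
    · have h6 := mul_le_mul_of_nonneg_left ((half_far a hinj ⌊t⌋ i).trans key) (norm_nonneg N)
      linarith
  have h7 := norm_sub_norm_le ((QC N fun i => (((a i : ℤ) : ℝ) : ℂ)).eval x) 4
  have h8 : ‖(4 : ℂ)‖ = 4 := by norm_num
  rw [h8] at h7
  linarith

end integers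

end Pool.Agent.V5helper77.BB
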